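import Pool.Agent.Lib.MP_acafa7_al.MS.Final

/-! MP_acafa7_al: in metrically systolic groups, the centralizers of elements of infinite order are
finitely generated. -/

namespace Pool.Agent.Results.MP_acafa7_al.Centralizers

/-- Let `Γ` be a metrically systolic group and `a ∈ Γ` an element of infinite order.  Then the
centralizer of `a` is finitely generated. -/
theorem result (Γ : Type) [Group Γ] (hΓ : MSG.IsMSGroup Γ) (a : Γ) (ha : ¬ IsOfFinOrder a) :
    (Subgroup.centralizer {a}).FG :=
  (MSG.cent_out hΓ a ha).1

end Pool.Agent.Results.MP_acafa7_al.Centralizers
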