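import Pool.Agent.Lib.MP_acafa7_al.MS.Final

/-! MP_acafa7_al: in metrically systolic groups, subgroups isomorphic to `Z^2` have finite index in
their commensurators. -/

namespace Pool.Agent.Results.MP_acafa7_al.Commensurators

/-- Let `Γ` be a metrically systolic group and `A` a subgroup isomorphic to `Z^2`.  Then `A` has
finite index in its commensurator (so also in its normalizer and its centralizer). -/
theorem result (Γ : Type) [Group Γ] (hΓ : MSG.IsMSGroup Γ) (A : Subgroup Γ)
    (hA : Nonempty (A ≃* Multiplicative (Fin 2 → ℤ))) :
    A.relIndex (Subgroup.Commensurable.commensurator A) ≠ 0 :=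
  MSG.comm_out hΓ A hA

end Pool.Agent.Results.MP_acafa7_al.Commensurators
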