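import Pool.Agent.Lib.MP_acafa7_al.F.FullF

/-! MP_acafa7_al, Q2: every solvable subgroup of a metrically systolic group is virtually
abelian. -/

namespace Pool.Agent.Results.MP_acafa7_al.Q2

/-- Every solvable subgroup `H` of a metrically systolic group `Γ` has a subgroup of finite index
isomorphic to `Z^r` with `r ≤ 2`. -/
theorem result (Γ : Type) [Group Γ] (hΓ : MSG.IsMSGroup Γ) (H : Subgroup Γ)
    (hs : Group.IsSolvable H) :
    ∃ r : ℕ, r ≤ 2 ∧ ∃ A : Subgroup Γ, A ≤ H ∧ A.relIndex H ≠ 0 ∧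
      Nonempty (A ≃* Multiplicative (Fin r → ℤ)) :=
  MSG.final_all Γ hΓ H hs

end Pool.Agent.Results.MP_acafa7_al.Q2
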